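import Pool.Agent.H677R3.RegKoszul
import Pool.Agent.Q14.Mono

/-!
# Regularity of slope one forces an ideal generated by variables
-/

set_option autoImplicit false

namespace Pool.Agent.Results.MP_d985a5_al.SlopeOne

open MvPolynomial Q14.Mono Pool.Agent.H677R3.EdgeReg

/-- The degrees of the homogeneous polynomials `f` such that `(J : f)` is an associated prime of
`S/J`. -/
def vSet {K : Type*} [Field K] {n : ℕ} (J : Ideal (MvPolynomial (Fin n) K)) : Set ℕ :=
  {d | ∃ f : MvPolynomial (Fin n) K, f.IsHomogeneous d ∧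
    Submodule.colon J {f} ∈ associatedPrimes (MvPolynomial (Fin n) K) (MvPolynomial (Fin n) K ⧸ J)}

/-- `v(J) = d`. -/
def IsVNumber {K : Type*} [Field K] {n : ℕ} (J : Ideal (MvPolynomial (Fin n) K)) (d : ℕ) : Prop :=
  IsLeast (vSet J) d

/-- `J` is a monomial ideal: it is generated by monomials. -/
def IsMonomialIdeal {K : Type*} [Field K] {n : ℕ} (J : Ideal (MvPolynomial (Fin n) K)) : Prop :=
  ∃ s : Set (Fin n →₀ ℕ), J = Ideal.span ((fun u => monomial u (1 : K)) '' s)

/-- `v(I^k) = a k + b` and `reg(I^k) = c k + d` for all large `k`. -/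
def Realizes {K : Type*} [Field K] {n : ℕ} (I : Ideal (MvPolynomial (Fin n) K)) (a b c d : ℤ) :
    Prop :=
  (∀ᶠ k : ℕ in Filter.atTop, ∃ v : ℕ, IsVNumber (I ^ k) v ∧ (v : ℤ) = a * k + b) ∧
  (∀ᶠ k : ℕ in Filter.atTop, ∃ r : ℕ, IsReg (I ^ k) r ∧ (r : ℤ) = c * k + d)

variable {K : Type*} [Field K] {n : ℕ}

/-- Standard weight. -/
lemma weight_indicator (A : Set (Fin n)) [DecidablePred (· ∈ A)] (u : Fin n →₀ ℕ) :
    Finsupp.weight (fun i => if i ∈ A then 1 else 0) u = ∑ i, if i ∈ A then u i else 0 := by
  rw [Finsupp.weight_apply, Finsupp.sum_fintype _ _ (by simp)]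
  refine Finset.sum_congr rfl fun i _ => ?_
  split_ifs <;> simp

open Classical in
/-- Monomials in the powers of a prime generated by variables. -/
lemma monomial_mem_PV_pow (A : Set (Fin n)) (k : ℕ) (u : Fin n →₀ ℕ) :
    monomial u (1 : K) ∈ PV K A ^ k ↔ k ≤ ∑ i, if i ∈ A then u i else 0 := by
  constructor
  · intro h
    have h1 : PV K A ≤ WtGE K (fun i => if i ∈ A then 1 else 0) 1 := by
      intro f hf u hu
      obtain ⟨i, hi, hui⟩ := mem_PV.mp hf u hu
      rw [weight_indicator]
      calc 1 ≤ u i := Nat.one_le_iff_ne_zero.mpr hui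
        _ = (if i ∈ A then u i else 0) := by rw [if_pos hi]
        _ ≤ _ := Finset.single_le_sum (f := fun i => if i ∈ A then u i else 0)
          (fun _ _ => Nat.zero_le _) (Finset.mem_univ i)
    have h2 := pow_le_WtGE h1 k h
    rw [mul_one, monomial_mem_WtGE, weight_indicator] at h2
    exact h2
  · induction k generalizing u with
    | zero => intro _; rw [pow_zero, Ideal.one_eq_top]; exact Submodule.mem_top
    | succ k ih =>
      intro h
      obtain ⟨i, -, hi⟩ : ∃ i ∈ Finset.univ, (if i ∈ A then u i else 0) ≠ 0 := by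
        apply Finset.exists_ne_zero_of_sum_ne_zero
        omega
      have hiA : i ∈ A := by by_contra hc; rw [if_neg hc] at hi; exact hi rfl
      rw [if_pos hiA] at hi
      have hle : Finsupp.single i 1 ≤ u := by
        rw [Finsupp.single_le_iff]; omega
      obtain ⟨v, hv⟩ := exists_add_of_le hle
      have hsum : (∑ j, if j ∈ A then u j else 0) = 1 + ∑ j, if j ∈ A then v j else 0 := by
        have h1 : ∀ j, (if j ∈ A then u j else 0) =
            (if j = i then 1 else 0) + (if j ∈ A then v j else 0) := by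
          intro j
          rw [hv]
          by_cases hj : j = i
          · subst hj; simp [hiA]
          · simp [hj]
        rw [Finset.sum_congr rfl (fun j _ => h1 j), Finset.sum_add_distrib]
        simp
      have h2 := ih v (by omega)
      rw [hv, pow_succ, mul_comm, show (monomial (Finsupp.single i 1 + v) (1 : K)) =
        X i * monomial v 1 by rw [X, monomial_mul, one_mul]]
      exact Ideal.mul_mem_mul (X_mem_PV.mpr hiA) h2

lemma isMon_PV (A : Set (Fin n)) : IsMon (PV K A) := by
  intro f hf u hu
  rw [mem_PV] at hf ⊢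
  intro v hv
  have : v = u := by simpa using support_monomial_subset hv
  rw [this]; exact hf u hu

/-- Upper bound for the regularity of a power of a prime generated by variables. -/
lemma reg_upper (A : Set (Fin n)) (k i e : ℕ) (h : TorNe (PV K A ^ k) i e) : e ≤ k := by
  classical
  by_contra hcon
  push Not at hcon
  refine upper_transfer (PV K A ^ k)
    (fun c => k ≤ ∑ i, if i ∈ A then c i else 0) ?_ i e ?_ h
  · intro p
    rw [((isMon_PV A).pow k).mem_iff]
    exact forall₂_congr (fun u _ => monomial_mem_PV_pow A k u)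
  · intro b hb a ha hc
    -- the cone over a vertex `w` of the support of `b`
    have cone : ∀ w : Fin n, b w ≠ 0 → ((∃ v, b v ≠ 0 ∧ v ∉ A) → w ∉ A) →
        ∃ g : Finset (Fin n) → K, (∀ T, g T ≠ 0 →
          KK (fun c => k ≤ ∑ i, if i ∈ A then c i else 0) b T ∧ T.card = i + 1) ∧
          ∀ T, cd g T = a T := by
      intro w hw hwA
      refine ⟨hv w a, ?_, ?_⟩
      · intro T hT
        unfold hv at hT
        split_ifs at hT with hwT
        · have haT : a (T.erase w) ≠ 0 := right_ne_zero_of_mul hT
          obtain ⟨⟨hle, hP⟩, hcard⟩ := ha _ haT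
          have hcard' : T.card = i + 1 := by
            rw [← hcard, Finset.card_erase_of_mem hwT]
            have := Finset.card_pos.mpr ⟨w, hwT⟩
            omega
          have hle' : ind T ≤ b := by
            intro v
            rw [ind_apply]
            by_cases hvw : v = w
            · subst hvw; rw [if_pos hwT]; omega
            · have := hle v
              rw [ind_apply] at this
              simpa [Finset.mem_erase, hvw] using this
          refine ⟨⟨hle', ?_⟩, hcard'⟩
          show k ≤ ∑ v, if v ∈ A then (b - ind T) v else 0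
          by_cases hA : ∃ v, b v ≠ 0 ∧ v ∉ A
          · have hw' := hwA hA
            refine hP.trans (Finset.sum_le_sum fun v _ => ?_)
            split_ifs with hvA
            · have hvw : v ≠ w := fun h => hw' (h ▸ hvA)
              rw [Finsupp.tsub_apply, Finsupp.tsub_apply, ind_apply, ind_apply]
              simp [Finset.mem_erase, hvw]
            · exact le_rfl
          · push Not at hA
            have h1 : ∀ v, (if v ∈ A then (b - ind T) v else 0) = b v - ind T v := by
              intro v
              split_ifs with hvA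
              · rw [Finsupp.tsub_apply]
              · have : b v = 0 := by by_contra hb0; exact hvA (hA v hb0)
                omega
            rw [Finset.sum_congr rfl (fun v _ => h1 v)]
            have h2 : ∑ v, (b v - ind T v) + ∑ v, ind T v = ∑ v, b v := by
              rw [← Finset.sum_add_distrib]
              exact Finset.sum_congr rfl fun v _ => Nat.sub_add_cancel (hle' v)
            rw [sum_ind] at h2
            omega
        · exact absurd rfl hT
      · intro T
        have h1 := homotopy w a T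
        have h2 : hv w (cd a) T = 0 := by
          unfold hv
          split_ifs
          · rw [hc, mul_zero]
          · rfl
        rw [h2, add_zero] at h1
        exact h1
    by_cases hA : ∃ w, b w ≠ 0 ∧ w ∉ A
    · obtain ⟨w, hw, hwA⟩ := hA
      exact cone w hw (fun _ => hwA)
    · obtain ⟨w, -, hw⟩ : ∃ v ∈ Finset.univ, b v ≠ 0 := by
        apply Finset.exists_ne_zero_of_sum_ne_zero
        omega
      exact cone w hw (fun h => absurd h hA)

/-- A lower bound for the degrees. -/
lemma reg_lower (J : Ideal (MvPolynomial (Fin n) K)) (k : ℕ)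
    (hJ : J ≤ WtGE K (fun _ => 1) k) (i e : ℕ) (h : TorNe J i e) : k ≤ e := by
  obtain ⟨f, h1, h2, -, -, h5⟩ := h
  by_contra hcon
  push Not at hcon
  apply h5
  have h0 : ∀ T, f T = 0 := by
    intro T
    by_contra hne
    obtain ⟨u, hu⟩ := MvPolynomial.support_nonempty.mpr hne
    have h3 := hJ (h1 T) u hu
    have h4 := (h2 T) (mem_support_iff.mp hu)
    have h6 : Finsupp.weight (fun _ : Fin n => 1) u = e := h4
    omega
  refine ⟨fun _ => 0, fun _ => J.zero_mem, fun _ _ => rfl, fun T => ?_⟩
  rw [h0]
  unfold koszulD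
  simp

/-- A minimal generator gives a nonzero `Tor_0`. -/
lemma torNe_zero (J : Ideal (MvPolynomial (Fin n) K)) (hJ : IsMon J) (w : Fin n →₀ ℕ)
    (hw : monomial w (1 : K) ∈ J)
    (hmin : ∀ j v, w = Finsupp.single j 1 + v → monomial v (1 : K) ∉ J) :
    TorNe J 0 (Finsupp.degree w) := by
  classical
  refine ⟨fun T => if T = ∅ then monomial w 1 else 0, ?_, ?_, ?_, ?_, ?_⟩
  · intro T; dsimp only; split_ifs; exacts [hw, J.zero_mem]
  · intro T
    dsimp only
    split_ifs
    · exact isHomogeneous_monomial _ rfl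
    · exact isHomogeneous_zero _ _ _
  · intro T hT
    dsimp only
    rw [if_neg]
    rintro rfl
    exact hT rfl
  · intro T
    unfold koszulD
    refine Finset.sum_eq_zero fun j _ => ?_
    dsimp only
    rw [if_neg (Finset.insert_ne_empty j T), mul_zero, mul_zero]
  · rintro ⟨g, hg1, -, hg3⟩
    have h1 := hg3 ∅
    dsimp only at h1
    rw [if_pos rfl] at h1
    have h2 : coeff w (koszulD g ∅) = 1 := by rw [h1, coeff_monomial, if_pos rfl]
    unfold koszulD at h2
    rw [coeff_sum] at h2
    obtain ⟨j, -, hj⟩ : ∃ j ∈ (∅ : Finset (Fin n))ᶜ, coeff w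
        ((-1) ^ (Finset.filter (· < j) (∅ : Finset (Fin n))).card * (X j * g (insert j ∅))) ≠
          (0 : K) := by
      apply Finset.exists_ne_zero_of_sum_ne_zero
      rw [h2]; exact one_ne_zero
    rw [coeff_neg_one_pow_mul] at hj
    have hj' := right_ne_zero_of_mul hj
    rw [coeff_X_mul'] at hj'
    split_ifs at hj' with hjw
    · have hle : Finsupp.single j 1 ≤ w := by
        rw [Finsupp.single_le_iff]
        have := Finsupp.mem_support_iff.mp hjw
        omega
      refine hmin j (w - Finsupp.single j 1) (add_tsub_cancel_of_le hle).symm ?_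
      exact hJ _ (hg1 _) _ (mem_support_iff.mpr hj')
    · exact hj' rfl


lemma pow_le_deg {I : Ideal (MvPolynomial (Fin n) K)} {A : Set (Fin n)} (hI : IsMon I)
    (htop : I ≠ ⊤) (hA : ∀ i, X i ∈ I → i ∈ A) (k : ℕ) (w : Fin n →₀ ℕ)
    (hw : monomial w (1 : K) ∈ I ^ k) (hoff : ∀ i ∈ A, w i = 0) : 2 * k ≤ Finsupp.degree w := by
  induction k generalizing w with
  | zero => simp
  | succ k ih =>
    rw [pow_succ] at hw
    obtain ⟨v, z, hv, hz, rfl⟩ := (hI.pow k).monomial_mem_mul hI hw
    have h1 := ih v hv (fun i hi => by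
      have := hoff i hi
      rw [Finsupp.add_apply] at this
      omega)
    have h2 : 2 ≤ Finsupp.degree z := by
      by_contra hcon
      have h3 : Finsupp.degree z = 0 ∨ Finsupp.degree z = 1 := by omega
      rcases h3 with h3 | h3
      · rw [Finsupp.degree_eq_zero_iff] at h3
        subst h3
        apply htop
        rw [Ideal.eq_top_iff_one]
        exact hz
      · obtain ⟨j, -, hj⟩ : ∃ j ∈ z.support, z j ≠ 0 := by
          apply Finset.exists_ne_zero_of_sum_ne_zero
          have h5 : z.support.sum z = 1 := h3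
          rw [h5]
          exact one_ne_zero
        have hz' : z = Finsupp.single j 1 := by
          have hle : Finsupp.single j 1 ≤ z := by rw [Finsupp.single_le_iff]; omega
          obtain ⟨y, hy⟩ := exists_add_of_le hle
          have h4 : Finsupp.degree y = 0 := by
            rw [hy, map_add, Finsupp.degree_single] at h3
            omega
          rw [Finsupp.degree_eq_zero_iff] at h4
          rw [hy, h4, add_zero]
        subst hz'
        have h4 := hoff j (hA j hz)
        rw [Finsupp.add_apply, Finsupp.single_eq_same] at h4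
        omega
    rw [map_add]
    omega

/-- Regularity of slope one: the ideal is generated by variables. -/
lemma eq_PV {I : Ideal (MvPolynomial (Fin n) K)} (hI : IsMon I) (htop : I ≠ ⊤) (d : ℤ)
    (hreg : ∀ᶠ k : ℕ in Filter.atTop, ∃ r : ℕ, IsReg (I ^ k) r ∧ (r : ℤ) = 1 * k + d) :
    ∃ A : Set (Fin n), I = PV K A := by
  classical
  refine ⟨{i | X i ∈ I}, le_antisymm ?_ ?_⟩
  · intro f hf
    rw [mem_PV]
    intro u hu
    by_contra hcon
    push Not at hcon
    have hu' := hI f hf u hu
    obtain ⟨k, ⟨r, hr, hr'⟩, hk⟩ :=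
      (hreg.and (Filter.eventually_gt_atTop (d.toNat))).exists
    -- the monomials of `I ^ k` off `A`
    have hex : ∃ e, ∃ w : Fin n →₀ ℕ, monomial w (1 : K) ∈ I ^ k ∧
        (∀ i ∈ {i | (X i : MvPolynomial (Fin n) K) ∈ I}, w i = 0) ∧ Finsupp.degree w = e := by
      refine ⟨_, k • u, ?_, ?_, rfl⟩
      · have := Ideal.pow_mem_pow hu' k
        rwa [monomial_pow, one_pow] at this
      · intro i hi
        rw [Finsupp.smul_apply, hcon i hi, smul_zero]
    obtain ⟨w, hw1, hw2, hw3⟩ := Nat.find_spec hex
    have hmin := fun m => Nat.find_min (m := m) hex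
    have hT : TorNe (I ^ k) 0 (Finsupp.degree w) := by
      apply torNe_zero _ (hI.pow k) w hw1
      intro j v hwv hv
      refine hmin (Finsupp.degree v) ?_ ⟨v, hv, ?_, rfl⟩
      · rw [← hw3, hwv, map_add, Finsupp.degree_single]; omega
      · intro i hi
        have := hw2 i hi
        rw [hwv, Finsupp.add_apply] at this
        omega
    have h1 := pow_le_deg hI htop (A := {i | X i ∈ I}) (fun i hi => hi) k w hw1 hw2
    have h2 := hr.2 ⟨0, hT⟩
    omega
  · unfold PV
    rw [Ideal.span_le]
    rintro _ ⟨i, hi, rfl⟩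
    exact hi

lemma PV_pow_le (A : Set (Fin n)) (k : ℕ) : PV K A ^ k ≤ WtGE K (fun _ => 1) k := by
  have h1 : PV K A ≤ WtGE K (fun _ => 1) 1 := by
    intro f hf u hu
    obtain ⟨i, hi, hui⟩ := mem_PV.mp hf u hu
    have h2 : Finsupp.weight (fun _ : Fin n => 1) u = ∑ i, u i := by
      rw [Finsupp.weight_apply, Finsupp.sum_fintype _ _ (by simp)]
      simp
    rw [h2]
    calc 1 ≤ u i := Nat.one_le_iff_ne_zero.mpr hui
      _ ≤ _ := Finset.single_le_sum (f := fun i => u i) (fun _ _ => Nat.zero_le _)
        (Finset.mem_univ i)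
  simpa using pow_le_WtGE h1 k

lemma reg_PV (A : Set (Fin n)) (k r : ℕ) (h : IsReg (PV K A ^ k) r) : r = k := by
  obtain ⟨i, hi⟩ := h.1
  exact le_antisymm (reg_upper A k i r hi) (reg_lower _ k (PV_pow_le A k) i r hi)

lemma nonempty_of_reg (A : Set (Fin n)) (k r : ℕ) (hk : 1 ≤ k) (h : IsReg (PV K A ^ k) r) :
    A.Nonempty := by
  by_contra hA
  rw [Set.not_nonempty_iff_eq_empty] at hA
  obtain ⟨i, hi⟩ := h.1
  have h1 := reg_lower (PV K A ^ k) (r + 1) (by
    have h0 : PV K A = ⊥ := by unfold PV; rw [hA, Set.image_empty, Ideal.span_empty]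
    rw [h0, Ideal.bot_pow (by omega)]
    exact bot_le) i r hi
  omega

open Classical in
lemma colon_PV (A : Set (Fin n)) (k : ℕ) (i : Fin n) (hi : i ∈ A) :
    Submodule.colon (PV K A ^ (k + 1)) {(monomial (Finsupp.single i k) (1 : K))} = PV K A := by
  ext f
  rw [((isMon_PV A).pow (k + 1)).mem_colon_monomial, mem_PV]
  refine forall₂_congr fun u _ => ?_
  rw [monomial_mem_PV_pow]
  have h1 : (∑ j, if j ∈ A then (u + Finsupp.single i k) j else 0) =
      (∑ j, if j ∈ A then u j else 0) + k := by
    have h2 : ∀ j, (if j ∈ A then (u + Finsupp.single i k) j else 0) =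
        (if j ∈ A then u j else 0) + (if j = i then k else 0) := by
      intro j
      by_cases hj : j = i
      · subst hj; simp [hi]
      · simp [hj]
    rw [Finset.sum_congr rfl (fun j _ => h2 j), Finset.sum_add_distrib]
    simp
  rw [h1]
  constructor
  · intro h
    obtain ⟨j, -, hj⟩ : ∃ j ∈ Finset.univ, (if j ∈ A then u j else 0) ≠ 0 := by
      apply Finset.exists_ne_zero_of_sum_ne_zero
      omega
    by_cases hjA : j ∈ A
    · rw [if_pos hjA] at hj; exact ⟨j, hjA, hj⟩
    · rw [if_neg hjA] at hj; exact absurd rfl hj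
  · rintro ⟨j, hjA, hj⟩
    have : 1 ≤ ∑ j, if j ∈ A then u j else 0 := by
      calc 1 ≤ u j := Nat.one_le_iff_ne_zero.mpr hj
        _ = (if j ∈ A then u j else 0) := by rw [if_pos hjA]
        _ ≤ _ := Finset.single_le_sum (f := fun i => if i ∈ A then u i else 0)
          (fun _ _ => Nat.zero_le _) (Finset.mem_univ j)
    omega

/-- The v-number of a power of a prime generated by variables. -/
lemma vnumber_PV (A : Set (Fin n)) (hA : A.Nonempty) (k : ℕ) :
    IsVNumber (PV K A ^ (k + 1)) k := by
  classical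
  obtain ⟨i, hi⟩ := hA
  constructor
  · refine ⟨monomial (Finsupp.single i k) 1, isHomogeneous_monomial _ (by simp), ?_⟩
    apply colon_mem_associatedPrimes
    rw [colon_PV A k i hi]
    exact PV_isPrime A
  · rintro e ⟨f, hf, hass⟩
    have hprime : (Submodule.colon (PV K A ^ (k + 1)) {f}).IsPrime :=
      (AssociatedPrimes.mem_iff.mp hass).isPrime
    have hfJ : f ∉ PV K A ^ (k + 1) := by
      intro h
      apply hprime.ne_top
      rw [Ideal.eq_top_iff_one, Submodule.mem_colon_singleton, one_smul]
      exact h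
    have hX : (X i : MvPolynomial (Fin n) K) ∈ Submodule.colon (PV K A ^ (k + 1)) {f} := by
      apply hprime.mem_of_pow_mem (k + 1)
      rw [Submodule.mem_colon_singleton, smul_eq_mul]
      exact Ideal.mul_mem_right _ _ (Ideal.pow_mem_pow (X_mem_PV.mpr hi) _)
    rw [Submodule.mem_colon_singleton, smul_eq_mul] at hX
    have hf0 : f ≠ 0 := fun h => hfJ (h ▸ Submodule.zero_mem _)
    obtain ⟨u, hu⟩ := MvPolynomial.support_nonempty.mpr hf0
    have h1 := ((isMon_PV A).pow (k + 1)).of_X_mul_mem hX hu
    rw [monomial_mem_PV_pow] at h1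
    have h2 : (∑ j, if j ∈ A then (Finsupp.single i 1 + u : Fin n →₀ ℕ) j else 0) ≤
        ∑ j, (Finsupp.single i 1 + u : Fin n →₀ ℕ) j := by
      refine Finset.sum_le_sum fun j _ => ?_
      split_ifs
      · exact le_rfl
      · exact Nat.zero_le _
    have h3 : ∑ j, (Finsupp.single i 1 + u : Fin n →₀ ℕ) j = 1 + ∑ j, u j := by
      simp only [Finsupp.add_apply]
      rw [Finset.sum_add_distrib]
      congr 1
      rw [Finset.sum_eq_single i (fun j _ hj => Finsupp.single_eq_of_ne hj) (by simp)]
      simp
    have h4 : ∑ j, u j = e := by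
      have := hf (mem_support_iff.mp hu)
      rw [Finsupp.weight_apply, Finsupp.sum_fintype _ _ (by simp)] at this
      simpa using this
    omega

lemma isReg_PV (A : Set (Fin n)) (hA : A.Nonempty) (k : ℕ) : IsReg (PV K A ^ k) k := by
  classical
  obtain ⟨i, hi⟩ := hA
  constructor
  · refine ⟨0, ?_⟩
    have h1 := torNe_zero (PV K A ^ k) ((isMon_PV A).pow k) (Finsupp.single i k) (by
      rw [monomial_mem_PV_pow]
      calc k = (if i ∈ A then (Finsupp.single i k) i else 0) := by simp [hi]
        _ ≤ _ := Finset.single_le_sum (f := fun j => if j ∈ A then (Finsupp.single i k) j else 0)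
          (fun _ _ => Nat.zero_le _) (Finset.mem_univ i)) (by
      intro j v hv hmem
      have h2 := PV_pow_le A k hmem v (by
        rw [support_monomial, if_neg one_ne_zero]; exact Finset.mem_singleton_self _)
      have h3 : Finsupp.weight (fun _ : Fin n => 1) v = Finsupp.degree v := by
        rw [Finsupp.weight_apply, Finsupp.sum_fintype _ _ (by simp), Finsupp.degree_eq_sum]
        simp
      have h4 := congrArg Finsupp.degree hv
      rw [map_add, Finsupp.degree_single, Finsupp.degree_single] at h4
      omega)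
    rwa [Finsupp.degree_single] at h1
  · rintro e ⟨i, hi⟩
    exact reg_upper A k i e hi

/-- **Classification for slope one, and the negative answer.** -/
theorem result (K : Type*) [Field K] :
    (∀ a b d : ℤ, (∃ (n : ℕ) (I : Ideal (MvPolynomial (Fin n) K)),
      IsMonomialIdeal I ∧ I ≠ ⊤ ∧ Realizes I a b 1 d) ↔ (a = 1 ∧ b = -1 ∧ d = 0)) ∧
    ¬ (∀ a b c d : ℤ, 1 ≤ a → -1 ≤ b → 1 ≤ c → 0 ≤ d →
      (∀ᶠ k : ℕ in Filter.atTop, a * k + b ≤ c * k + d) →
      ∃ (n : ℕ) (I : Ideal (MvPolynomial (Fin n) K)),
        IsMonomialIdeal I ∧ I ≠ ⊤ ∧ Realizes I a b c d) := by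
  have main : ∀ a b d : ℤ, (∃ (n : ℕ) (I : Ideal (MvPolynomial (Fin n) K)),
      IsMonomialIdeal I ∧ I ≠ ⊤ ∧ Realizes I a b 1 d) ↔ (a = 1 ∧ b = -1 ∧ d = 0) := by
    intro a b d
    constructor
    · rintro ⟨n, I, ⟨s, hs⟩, htop, hv, hr⟩
      have hI : IsMon I := by rw [hs]; exact isMon_span s
      obtain ⟨A, rfl⟩ := eq_PV hI htop d hr
      obtain ⟨k, ⟨⟨r, hr1, hr2⟩, hk⟩⟩ := (hr.and (Filter.eventually_ge_atTop 1)).exists
      have hA := nonempty_of_reg A k r hk hr1
      have hrk := reg_PV A k r hr1
      have hv' : ∀ᶠ k : ℕ in Filter.atTop, (k : ℤ) - 1 = a * k + b := by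
        filter_upwards [hv, Filter.eventually_ge_atTop 1] with m hm hm1
        obtain ⟨v, hv1, hv2⟩ := hm
        obtain ⟨m, rfl⟩ : ∃ m', m = m' + 1 := ⟨m - 1, by omega⟩
        have := hv1.unique (vnumber_PV A hA m)
        subst this
        rw [← hv2]; push_cast; ring
      obtain ⟨N, hN⟩ := Filter.eventually_atTop.mp hv'
      have e1 := hN N le_rfl
      have e2 := hN (N + 1) (by omega)
      push_cast at e2
      have e3 : a = 1 := by linarith
      subst e3
      refine ⟨rfl, by linarith, ?_⟩
      subst hrk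
      linarith
    · rintro ⟨rfl, rfl, rfl⟩
      have hne : ({0} : Set (Fin 1)).Nonempty := Set.singleton_nonempty 0
      refine ⟨1, PV K {0}, ⟨{Finsupp.single 0 1}, ?_⟩, (PV_isPrime _).ne_top, ?_, ?_⟩
      · unfold PV
        rw [Set.image_singleton, Set.image_singleton]
        rfl
      · filter_upwards [Filter.eventually_ge_atTop 1] with m hm
        obtain ⟨m, rfl⟩ : ∃ m', m = m' + 1 := ⟨m - 1, by omega⟩
        refine ⟨m, vnumber_PV _ hne m, ?_⟩
        push_cast
        ring
      · refine Filter.Eventually.of_forall fun m => ⟨m, isReg_PV _ hne m, ?_⟩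
        ring
  refine ⟨main, fun h => ?_⟩
  have h1 := h 1 0 1 0 le_rfl (by norm_num) le_rfl le_rfl (Filter.Eventually.of_forall
    (fun k => le_rfl))
  have h2 := (main 1 0 0).mp h1
  norm_num at h2

end Pool.Agent.Results.MP_d985a5_al.SlopeOne
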